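import Pool.Agent.Helper35.PI2.St

/-!
PI2 module GS: divergence of the covector `S` at the centre of the graph.
-/

namespace Helper6.PI2

open Helper35.PI Helper35.PI2
open scoped ContDiff Manifold Topology ENNReal BigOperators
open MeasureTheory Set Filter

private theorem slice_GS {n : ℕ} {V : Type*} [NormedAddCommGroup V] [NormedSpace ℝ V]
    (φ : EE n × ℝ → V) (x : EE n) (t : ℝ) (m : Fin n) (h : DifferentiableAt ℝ φ (x, t)) :
    fderiv ℝ (fun y => φ (y, t)) x (ee m) = jg φ (x, t) m := by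
  have h1 : HasFDerivAt (fun y : EE n => ((y, t) : EE n × ℝ))
      (ContinuousLinearMap.inl ℝ (EE n) ℝ) x := hasFDerivAt_prodMk_left x t
  have h2 : HasFDerivAt (fun y => φ (y, t))
      ((fderiv ℝ φ (x, t)).comp (ContinuousLinearMap.inl ℝ (EE n) ℝ)) x :=
    HasFDerivAt.comp x h.hasFDerivAt h1
  rw [h2.fderiv]
  simp [jg]

private theorem congr_GS {n : ℕ} {V : Type*} [NormedAddCommGroup V] [NormedSpace ℝ V]
    {φ ψ : EE n × ℝ → V} {z : EE n × ℝ} (h : φ =ᶠ[𝓝 z] ψ) (k : Fin n) :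
    jg φ z k = jg ψ z k := by
  unfold jg
  rw [h.fderiv_eq]

private theorem sum_GS {n : ℕ} {ι : Type*} (s : Finset ι) (φ : ι → EE n × ℝ → ℝ)
    {z : EE n × ℝ} (h : ∀ i ∈ s, DifferentiableAt ℝ (φ i) z) (k : Fin n) :
    jg (fun z => ∑ i ∈ s, φ i z) z k = ∑ i ∈ s, jg (φ i) z k := by
  unfold jg
  rw [fderiv_fun_sum h, ContinuousLinearMap.sum_apply]

private theorem smooth_GS {n : ℕ} {V : Type*} [NormedAddCommGroup V] [NormedSpace ℝ V]
    {φ : EE n × ℝ → V} {z : EE n × ℝ} (h : ContDiffAt ℝ ∞ φ z) (k : Fin n) :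
    ContDiffAt ℝ ∞ (fun z => jg φ z k) z := by
  unfold jg
  exact (h.fderiv_right (m := ∞) (by simp)).clm_apply contDiffAt_const

theorem hGS (hGH : StGH) (hG0 : StG0) (hG1 : StG1) (hJB : StJB) : StGS := by
  intro n N x₀ L u t₀ hg A T hA hT
  obtain ⟨hHs, hH0, hH1, hH2, hAf⟩ := hGH n N x₀ L u t₀ hg A T hA hT
  obtain ⟨hsA, hsT, hAL, hTL⟩ := hG1 n N x₀ L u t₀ hg
  rw [← hA] at hsA hAL
  rw [← hT] at hsT hTL
  have hG := hG0 n N x₀ L u t₀ hg
  obtain ⟨hJm, hJi⟩ := hJB n N ((0 : EE n), t₀)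
  -- the explicit form of `S`
  set R : Fin n → EE n × ℝ → ℝ := fun k z => ∑ l, ∑ m,
    GIf x₀ L u l m z * inner ℝ (Af x₀ L u k l z) (jg (Hf x₀ L u) z m) with hR
  have hev : ∀ k, Sf x₀ L u k =ᶠ[𝓝 ((0 : EE n), t₀)] R k := by
    intro k
    have h1 : ∀ᶠ z in 𝓝 ((0 : EE n), t₀), ContDiffAt ℝ 1 (Hf x₀ L u) z :=
      (hHs.of_le (by exact_mod_cast le_top)).eventually (by simp)
    filter_upwards [h1] with z hz
    have hd : DifferentiableAt ℝ (Hf x₀ L u) (z.1, z.2) := hz.differentiableAt (by norm_num)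
    have h2 : ∀ m, fderiv ℝ (mcv (grf x₀ L u z.2)) z.1 (ee m) = jg (Hf x₀ L u) z m := by
      intro m
      exact slice_GS (Hf x₀ L u) z.1 z.2 m hd
    simp only [Sf, scv, hR, h2]
    rfl
  have hin : ∀ k l m, ContDiffAt ℝ ∞
      (fun z => (inner ℝ (Af x₀ L u k l z) (jg (Hf x₀ L u) z m) : ℝ)) ((0 : EE n), t₀) :=
    fun k l m => (hAf k l).1.inner ℝ (smooth_GS hHs m)
  have hterm : ∀ k l m, ContDiffAt ℝ ∞
      (fun z => GIf x₀ L u l m z * (inner ℝ (Af x₀ L u k l z) (jg (Hf x₀ L u) z m) : ℝ))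
      ((0 : EE n), t₀) := fun k l m => (hG l m).1.mul (hin k l m)
  have hRs : ∀ k, ContDiffAt ℝ ∞ (R k) ((0 : EE n), t₀) := by
    intro k
    exact ContDiffAt.sum fun l _ => ContDiffAt.sum fun m _ => hterm k l m
  have hetL : ∀ l v, (inner ℝ (et T l) (L v) : ℝ) = 0 := by
    intro l v
    simp only [et, sum_inner]
    exact Finset.sum_eq_zero fun i _ => hTL i i l v
  have hval : ∀ k l, (inner ℝ (A k l) (jg (Hf x₀ L u) ((0 : EE n), t₀) l) : ℝ)
      = inner ℝ (A k l) (et T l) := by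
    intro k l
    rw [hH1 l, inner_sub_right, inner_sum]
    have : ∑ a, (inner ℝ (A k l) ((inner ℝ (Hv A) (A a l) : ℝ) • L (ee a)) : ℝ) = 0 :=
      Finset.sum_eq_zero fun a _ => by rw [inner_smul_right, hAL, mul_zero]
    rw [this, sub_zero]
  refine ⟨fun k => ⟨(hRs k).congr_of_eventuallyEq (hev k), ?_⟩, ?_⟩
  · rw [(hev k).eq_of_nhds]
    simp only [hR]
    refine Finset.sum_congr rfl fun l _ => ?_
    rw [Finset.sum_eq_single l]
    · rw [(hG l l).2.1, if_pos rfl, one_mul, (hAf k l).2.1, hval]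
    · intro m _ hm
      rw [(hG l m).2.1, if_neg (Ne.symm hm), zero_mul]
    · intro h; exact absurd (Finset.mem_univ _) h
  · -- the derivative
    have h2le : (2 : WithTop ℕ∞) ≤ ((⊤ : ℕ∞) : WithTop ℕ∞) :=
      WithTop.coe_le_coe.2 (le_top : (2 : ℕ∞) ≤ ⊤)
    have hder : ∀ k, jg (Sf x₀ L u k) ((0 : EE n), t₀) k
        = ∑ l, ((inner ℝ (jg (Af x₀ L u k l) ((0 : EE n), t₀) k)
              (jg (Hf x₀ L u) ((0 : EE n), t₀) l) : ℝ)
            + inner ℝ (A k l) (jgg (Hf x₀ L u) ((0 : EE n), t₀) k l)) := by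
      intro k
      rw [congr_GS (hev k) k]
      simp only [hR]
      rw [sum_GS _ _ (fun l _ => (ContDiffAt.sum fun m _ => hterm k l m).differentiableAt
        (by simp))]
      refine Finset.sum_congr rfl fun l _ => ?_
      rw [sum_GS _ _ (fun m _ => (hterm k l m).differentiableAt (by simp))]
      rw [Finset.sum_eq_single l]
      · rw [(hJm _ _ ((hG l l).1.of_le h2le)
          ((hin k l l).of_le h2le)).1 k]
        rw [(hG l l).2.2.1 k, zero_mul, zero_add, (hG l l).2.1, if_pos rfl, one_mul]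
        rw [(hJi _ _ ((hAf k l).1.of_le h2le)
          ((smooth_GS hHs l).of_le h2le)).1 k]
        rw [(hAf k l).2.1]
        rfl
      · intro m _ hm
        rw [(hJm _ _ ((hG l m).1.of_le h2le)
          ((hin k l m).of_le h2le)).1 k]
        rw [(hG l m).2.2.1 k, zero_mul, zero_add, (hG l m).2.1, if_neg (Ne.symm hm), zero_mul]
      · intro h; exact absurd (Finset.mem_univ _) h
    have hLL : ∀ a b : Fin n, (inner ℝ (L (ee a)) (L (ee b)) : ℝ) = if a = b then 1 else 0 := by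
      intro a b
      rw [L.inner_map_map]
      simp only [ee, EuclideanSpace.inner_single_left, PiLp.single_apply]
      split_ifs <;> simp_all
    have hfirst : ∀ k l, (inner ℝ (jg (Af x₀ L u k l) ((0 : EE n), t₀) k)
          (jg (Hf x₀ L u) ((0 : EE n), t₀) l) : ℝ)
        = inner ℝ (T k k l) (et T l) + ∑ a, (inner ℝ (A k l) (A k a) : ℝ) * zz A a l := by
      intro k l
      rw [(hAf k l).2.2.1 k, hH1 l]
      rw [inner_sub_left, inner_sub_right, inner_sub_right]
      have e1 : (inner ℝ (T k k l) (∑ a, (inner ℝ (Hv A) (A a l) : ℝ) • L (ee a)) : ℝ) = 0 := by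
        rw [inner_sum]
        exact Finset.sum_eq_zero fun a _ => by rw [inner_smul_right, hTL, mul_zero]
      have e2 : (inner ℝ (∑ a, (inner ℝ (A k l) (A a k) : ℝ) • L (ee a)) (et T l) : ℝ) = 0 := by
        rw [sum_inner]
        exact Finset.sum_eq_zero fun a _ => by
          rw [real_inner_smul_left, real_inner_comm (et T l) (L (ee a)), hetL, mul_zero]
      have e3 : (inner ℝ (∑ a, (inner ℝ (A k l) (A a k) : ℝ) • L (ee a))
            (∑ b, (inner ℝ (Hv A) (A b l) : ℝ) • L (ee b)) : ℝ)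
          = ∑ a, (inner ℝ (A k l) (A k a) : ℝ) * zz A a l := by
        rw [sum_inner]
        refine Finset.sum_congr rfl fun a _ => ?_
        rw [inner_sum, Finset.sum_eq_single a]
        · rw [real_inner_smul_left, inner_smul_right, hLL, if_pos rfl, mul_one, hsA a k]
          rw [real_inner_comm (A a l) (Hv A)]
          rfl
        · intro b _ hb
          rw [real_inner_smul_left, inner_smul_right, hLL, if_neg (Ne.symm hb), mul_zero, mul_zero]
        · intro h; exact absurd (Finset.mem_univ _) h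
      rw [e1, e2, e3]
      ring
    have hsecond : ∀ k l, (inner ℝ (A k l) (jgg (Hf x₀ L u) ((0 : EE n), t₀) k l) : ℝ)
        = inner ℝ (A k l) (ut u ((0 : EE n), t₀) k l)
          - (∑ a, (inner ℝ (A l k) (A l a) : ℝ) * zz A a k)
          - ∑ a, (inner ℝ (A k l) (A k a) : ℝ) * zz A a l := by
      intro k l
      rw [hH2 (A k l) (hAL k l) k l]
      rw [Finset.sum_add_distrib, ← sub_sub]
      congr 1
      · congr 1
        refine Finset.sum_congr rfl fun a _ => ?_
        rw [hsA a l, hsA k l, mul_comm, real_inner_comm (A a k) (Hv A)]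
        rfl
      · refine Finset.sum_congr rfl fun a _ => ?_
        rw [hsA a k, mul_comm, real_inner_comm (A a l) (Hv A)]
        rfl
    have hAAH : AAH A = ∑ k, ∑ l, ∑ a, (inner ℝ (A k l) (A k a) : ℝ) * zz A a l := rfl
    have hAAH' : ∑ k, ∑ l, ∑ a, (inner ℝ (A l k) (A l a) : ℝ) * zz A a k = AAH A := by
      rw [Finset.sum_comm, hAAH]
    have heq2 : ∑ k, ∑ l, (inner ℝ (T k k l) (et T l) : ℝ) = eq2 T := by
      rw [Finset.sum_comm]
      unfold eq2
      refine Finset.sum_congr rfl fun l _ => ?_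
      rw [← real_inner_self_eq_norm_sq, ← sum_inner]
      rfl
    calc ∑ k, jg (Sf x₀ L u k) ((0 : EE n), t₀) k
        = ∑ k, ∑ l, ((inner ℝ (T k k l) (et T l) : ℝ)
            + inner ℝ (A k l) (ut u ((0 : EE n), t₀) k l)
            - ∑ a, (inner ℝ (A l k) (A l a) : ℝ) * zz A a k) := by
          refine Finset.sum_congr rfl fun k _ => ?_
          rw [hder k]
          refine Finset.sum_congr rfl fun l _ => ?_
          rw [hfirst, hsecond]
          ring
      _ = _ := by
          simp only [Finset.sum_sub_distrib, Finset.sum_add_distrib]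
          rw [hAAH', heq2]
          ring

end Helper6.PI2
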